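import Mathlib

namespace Pool.Agent.Results.MP_7bafff_nt.Counter

def IsUlam (u : ℕ → ℕ) : Prop :=
  u 1 = 1 ∧ u 2 = 2 ∧ ∀ n, 3 ≤ n → IsLeast {m | u (n - 1) < m ∧
    ∃! p : ℕ × ℕ, 1 ≤ p.1 ∧ p.1 < p.2 ∧ p.2 < n ∧ u p.1 + u p.2 = m} (u n)

def lucas : ℕ → ℕ
  | 0 => 2
  | 1 => 1
  | n + 2 => lucas (n + 1) + lucas n

noncomputable def V : ℕ → ℕ → ℕ
  | 0 => fun _ => 0
  | n + 1 => Function.update (V n) (n + 1) (if n + 1 ≤ 2 then n + 1 else sInf {m | V n n < m ∧
      ∃! p : ℕ × ℕ, 1 ≤ p.1 ∧ p.1 < p.2 ∧ p.2 < n + 1 ∧ V n p.1 + V n p.2 = m})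

theorem V_eq {n i : ℕ} (h : i ≤ n) : V n i = V i i := by
  induction n, h using Nat.le_induction with
  | base => rfl
  | succ n h ih => rw [V, Function.update_of_ne (by omega), ih]

theorem mono {u : ℕ → ℕ} {n : ℕ} (h : ∀ k, 1 ≤ k → k < n → u k < u (k + 1)) {i j : ℕ} (h1 : 1 ≤ i)
    (h2 : i < j) (h3 : j ≤ n) : u i < u j := by
  induction j, h2 using Nat.le_induction with
  | base => exact h i h1 h3
  | succ j h2 ih => exact (ih (by omega)).trans (h j (by omega) h3)

theorem ex : IsUlam fun n => V n n := by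
  have h1 : V 1 1 = 1 := by simp [V]
  have h2 : V 2 2 = 2 := by simp [V]
  have key : ∀ n, (∀ k, 1 ≤ k → k < n + 2 → V k k < V (k + 1) (k + 1)) →
      IsLeast {m | V (n + 2) (n + 2) < m ∧ ∃! p : ℕ × ℕ, 1 ≤ p.1 ∧ p.1 < p.2 ∧ p.2 < n + 3 ∧
        V p.1 p.1 + V p.2 p.2 = m} (V (n + 3) (n + 3)) := fun n h => by
    have e : V (n + 3) (n + 3) = sInf {m | V (n + 2) (n + 2) < m ∧ ∃! p : ℕ × ℕ, 1 ≤ p.1 ∧
        p.1 < p.2 ∧ p.2 < n + 3 ∧ V p.1 p.1 + V p.2 p.2 = m} := by
      rw [V, Function.update_self, if_neg (by omega)]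
      congr 1
      ext m
      refine and_congr_right fun _ => existsUnique_congr fun p => and_congr_right fun _ =>
        and_congr_right fun a => and_congr_right fun b => ?_
      rw [V_eq (show p.1 ≤ n + 2 by omega), V_eq (show p.2 ≤ n + 2 by omega)]
    rw [e]
    refine ⟨Nat.sInf_mem ⟨V (n + 1) (n + 1) + V (n + 2) (n + 2), ?_, (n + 1, n + 2),
      ⟨by omega, by omega, by omega, rfl⟩, ?_⟩, fun m hm => Nat.sInf_le hm⟩
    · rcases Nat.eq_zero_or_pos n with rfl | h0
      · simp [h1]
      · have := mono h le_rfl (show 1 < n + 1 by omega) (by omega)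
        omega
    · rintro ⟨i, j⟩ ⟨a, b, c, d⟩
      simp only at a b c d
      have k1 : i < n + 1 → V i i < V (n + 1) (n + 1) := fun k => mono h a k (by omega)
      have k2 : j < n + 2 → V j j < V (n + 2) (n + 2) := fun k => mono h (by omega) k le_rfl
      obtain rfl : j = n + 2 := by
        by_contra hj
        have := k1 (by omega)
        have := k2 (by omega)
        omega
      obtain rfl : i = n + 1 := by
        by_contra hi
        have := k1 (by omega)
        omega
      rfl
  have all : ∀ n k, 1 ≤ k → k < n + 2 → V k k < V (k + 1) (k + 1) := fun n => by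
    induction n with
    | zero => intro k a b; obtain rfl : k = 1 := by omega
              simp [h1, h2]
    | succ n ih =>
      intro k a b
      rcases Nat.lt_succ_iff_lt_or_eq.1 b with b | rfl
      · exact ih k a b
      · exact (key n ih).1.1
  refine ⟨h1, h2, fun n hn => ?_⟩
  obtain ⟨n, rfl⟩ := Nat.exists_eq_add_of_le' hn
  exact key n (all n)

theorem char {u : ℕ → ℕ} (h : IsUlam u) {m : ℕ} (hm : 3 ≤ m) : (∃ i, 1 ≤ i ∧ u i = m) ↔
    ∃! a, 2 * a < m ∧ (∃ i, 1 ≤ i ∧ u i = a) ∧ ∃ j, 1 ≤ j ∧ u j = m - a := by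
  have st : ∀ k, 1 ≤ k → u k < u (k + 1) := fun k hk => by
    rcases Nat.eq_or_lt_of_le hk with rfl | hk
    · rw [h.1, h.2.1]; norm_num
    · exact (h.2.2 (k + 1) (by omega)).1.1
  have mo : ∀ {i j}, 1 ≤ i → i < j → u i < u j := fun a b => mono (fun k a _ => st k a) a b le_rfl
  have lt : ∀ {i j}, 1 ≤ j → u i < u j ∨ i = 0 → 1 ≤ i → i < j := fun {i j} a b c => by
    by_contra hc
    rcases Nat.eq_or_lt_of_le (not_lt.1 hc) with rfl | hc
    · omega
    · have := mo a hc
      omega
  have inj : ∀ {i j}, 1 ≤ i → 1 ≤ j → u i = u j → i = j := fun {i j} a b c => by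
    rcases lt_trichotomy i j with k | k | k
    · exact absurd c (mo a k).ne
    · exact k
    · exact absurd c (mo b k).ne'
  have ge : ∀ i, 1 ≤ i → i ≤ u i := fun i hi => by
    induction i, hi using Nat.le_induction with
    | base => exact h.1.ge
    | succ i a ih => exact lt_of_le_of_lt ih (st i a)
  have eq : ∀ n, 1 ≤ n → m ≤ u n → ((∃! p : ℕ × ℕ, 1 ≤ p.1 ∧ p.1 < p.2 ∧ p.2 < n ∧
      u p.1 + u p.2 = m) ↔ ∃! a, 2 * a < m ∧ (∃ i, 1 ≤ i ∧ u i = a) ∧
        ∃ j, 1 ≤ j ∧ u j = m - a) := fun n hn hu => by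
    constructor
    · rintro ⟨⟨i, j⟩, ⟨a, b, c, d⟩, e⟩
      simp only at a b c d
      have := mo a b
      refine ⟨u i, ⟨by omega, ⟨i, a, rfl⟩, j, by omega, by omega⟩, ?_⟩
      rintro _ ⟨a', ⟨i', b', rfl⟩, j', c', d'⟩
      have := ge i' b'
      have := e (i', j') ⟨b', lt (i := i') (j := j') c' (by omega) b', lt (i := j') hn (by omega) c',
        by simp only; omega⟩
      exact congrArg (fun p => u p.1) this
    · rintro ⟨_, ⟨a, ⟨i, b, rfl⟩, j, c, d⟩, e⟩
      have := ge i b
      refine ⟨(i, j), ⟨b, lt (i := i) (j := j) c (by omega) b, lt (i := j) hn (by omega) c,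
        by simp only; omega⟩, ?_⟩
      rintro ⟨i', j'⟩ ⟨a', b', c', d'⟩
      simp only at a' b' c' d'
      have := mo a' b'
      have := e (u i') ⟨by omega, ⟨i', a', rfl⟩, j', by omega, by omega⟩
      rw [inj a' b this, inj (by omega) c (show u j' = u j by omega)]
  have h3 : ∀ n, 1 ≤ n → m ≤ u n → 3 ≤ n := fun n a b => by
    by_contra hc
    have := h.1
    have := h.2.1
    interval_cases n <;> omega
  constructor
  · rintro ⟨n, a, rfl⟩
    exact (eq n a le_rfl).1 (h.2.2 n (h3 n a le_rfl)).1.2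
  · intro k
    have hex : ∃ n, 1 ≤ n ∧ m ≤ u n := ⟨m, by omega, ge m (by omega)⟩
    classical
    obtain ⟨a, b⟩ := Nat.find_spec hex
    have c := h3 _ a b
    have d := Nat.find_min hex (show Nat.find hex - 1 < Nat.find hex by omega)
    exact ⟨_, a, le_antisymm ((h.2.2 _ c).2 ⟨by by_contra e; exact d ⟨by omega, by omega⟩,
      (eq _ a b).2 k⟩) b⟩

def L : List ℕ := [1, 2, 3, 4, 6, 8, 11, 13, 16, 18, 26, 28, 36, 38, 47, 48, 53, 57, 62, 69, 72, 77, 82, 87, 97,
  99, 102, 106, 114, 126, 131, 138, 145, 148, 155, 175, 177, 180, 182, 189, 197, 206, 209, 219,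
  221, 236, 238, 241, 243, 253, 258, 260, 273, 282, 309, 316, 319, 324, 339, 341, 356, 358, 363,
  370, 382, 390, 400, 402, 409, 412, 414, 429, 431, 434, 441, 451, 456, 483, 485, 497, 502, 522,
  524, 544, 546, 566, 568, 585, 602, 605, 607, 612, 624, 627, 646, 668, 673, 685, 688, 690, 695,
  720, 722, 732, 734, 739, 751, 781, 783, 798, 800, 820, 847, 849, 861, 864, 866, 891, 893, 905,
  927, 949, 983, 986, 991, 1018, 1020, 1023, 1025, 1030, 1032, 1035, 1037, 1052, 1079, 1081, 1101,
  1103, 1125, 1155, 1157, 1164, 1167, 1169, 1186, 1191, 1208, 1230, 1252, 1257, 1296, 1308, 1311,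
  1313, 1335, 1338, 1340, 1355, 1360, 1377, 1387, 1389, 1404, 1406, 1428, 1431, 1433, 1462, 1465,
  1470, 1472, 1489, 1492, 1509, 1514, 1516, 1531, 1536, 1538, 1550, 1553, 1594, 1602, 1604, 1616,
  1641, 1643, 1646, 1648, 1660, 1682, 1707, 1709, 1721, 1724, 1748, 1765, 1770, 1790, 1792, 1812,
  1814, 1834, 1836, 1853, 1856, 1858, 1900, 1902, 1919, 1941, 1944, 1946, 1966, 1968, 1985, 2010,
  2012, 2032, 2034, 2054, 2056, 2090, 2093, 2095, 2112, 2115, 2117, 2134, 2156, 2178, 2247, 2249,
  2252, 2254, 2288, 2327, 2330, 2332, 2354, 2371, 2393, 2418, 2420, 2445, 2447, 2462, 2464, 2481,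
  2484, 2486, 2511, 2513, 2525, 2550, 2552, 2572, 2574, 2581, 2584, 2589, 2613, 2616, 2618, 2628,
  2630, 2633, 2635, 2650, 2660, 2662, 2674, 2696, 2721, 2723, 2748, 2750, 2762, 2787, 2789, 2809,
  2811, 2814, 2816, 2831, 2833, 2897, 2899, 2916, 2919, 2921, 2985, 2987, 3029, 3031, 3038, 3041,
  3043, 3065, 3068, 3070, 3085, 3090, 3092, 3107, 3109, 3131, 3153, 3205, 3207, 3214, 3217, 3219,
  3236, 3239, 3261, 3263, 3288, 3290, 3305, 3368, 3371, 3373, 3390, 3393, 3395, 3415, 3417, 3451,
  3454, 3456, 3473, 3476, 3481, 3483, 3495, 3525, 3527, 3544, 3547, 3549]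

def B : ℕ := 2904615100826910162214284305106327128500051073091633952295731325071972364517874682713121852985210552207473151425261959833590490338604084639983097584527949257826545409389650004351852767609241076929873119124186322313154438923011036323378381493999480584044012071604901539680379018807198430379303796317324035292901413806895971572141998944576395401541890889804899152111192126131499698551408540602118547941492316297849156084610660501608027383272348785061275229005236534184631123312093192645799083615919677781042118701835011176127853348719424460221586930807186475600074671346890993868305481905907433789195023249017366268727689936105017267687674443000114556690027172810060380851903628633580366406908455915155538171577630150900935721377988180072221074798879198035516878867810372702004150301142871300687202919253429103125770606692485096577779678403491831325915643545823291563913063649332894167343546637782593905860295243982831699752316029493595727283915062751917812467931618229017032594529082918987126105161331882823687523102416054372087678579386953533641758837614102469316782430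

def rp (l : List ℕ) (m : ℕ) : List ℕ := l.filter fun a => decide (2 * a < m) && B.testBit (m - a)

def reps (m : ℕ) : List ℕ := rp L m

def sh (a : ℕ) : ℕ := (B >>> (a + 1)) <<< (2 * a + 1)

def go : List ℕ → ℕ × ℕ
  | [] => (0, 0)
  | a :: l => ((go l).1 ||| sh a, (go l).2 ||| ((go l).1 &&& sh a))

theorem go_spec (l : List ℕ) (m : ℕ) : ((go l).1.testBit m = true ↔ 1 ≤ (rp l m).length) ∧
    ((go l).2.testBit m = true ↔ 2 ≤ (rp l m).length) := by
  induction l with
  | nil => simp [go, rp]
  | cons a l ih =>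
    have e : (sh a).testBit m = (decide (2 * a < m) && B.testBit (m - a)) := by
      rw [sh, Nat.testBit_shiftLeft, Nat.testBit_shiftRight]
      by_cases h : 2 * a < m
      · rw [show a + 1 + (m - (2 * a + 1)) = m - a by omega]; rfl
      · rw [decide_eq_false h, decide_eq_false (show ¬ m ≥ 2 * a + 1 from h)]; rfl
    simp only [go, Nat.testBit_or, Nat.testBit_and, Bool.or_eq_true, Bool.and_eq_true, ih.1, ih.2,
      rp, List.filter_cons, ← e] at ih ⊢
    split_ifs with h <;> simp [h] <;> omega

theorem bits (l : List ℕ) (m : ℕ) :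
    (l.foldr (fun a r => 2 ^ a ||| r) 0).testBit m = true ↔ m ∈ l := by
  induction l with
  | nil => simp
  | cons a l ih =>
    rw [List.foldr_cons, Nat.testBit_or, Nat.testBit_two_pow, Bool.or_eq_true, ih, List.mem_cons,
      decide_eq_true_eq, eq_comm]

theorem chk (m : ℕ) (h : m < 3572) : (B.testBit m = true ↔ m ∈ L) ∧
    (3 ≤ m → (B.testBit m = true ↔ (reps m).length = 1)) := by
  have e1 : B = L.foldr (fun a r => 2 ^ a ||| r) 0 := by decide +kernel
  have e2 : B >>> 3 = (((go L).1 ^^^ (go L).2) % 2 ^ 3572) >>> 3 := by decide +kernel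
  refine ⟨by rw [← bits, ← e1], fun h3 => ?_⟩
  have := congrArg (·.testBit (m - 3)) e2
  simp only [Nat.testBit_shiftRight, show 3 + (m - 3) = m by omega, Nat.testBit_mod_two_pow,
    Nat.testBit_xor, decide_eq_true h, Bool.true_and] at this
  obtain ⟨a, b⟩ := go_spec L m
  rw [this, reps]
  clear this e1 e2
  revert a b
  generalize (rp L m).length = k
  cases (go L).1.testBit m <;> cases (go L).2.testBit m <;> simp <;> omega

theorem result : (∃ u, IsUlam u) ∧ ∀ u, IsUlam u → ∃ n, (∀ i, 1 ≤ i → u i ≠ lucas n) ∧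
    ∀ i j, 1 ≤ i → i < j → u i + u j ≠ lucas n := by
  refine ⟨⟨_, ex⟩, fun u h => ?_⟩
  have nd : L.Nodup := by decide +kernel
  have st : ∀ k, 1 ≤ k → u k < u (k + 1) := fun k hk => by
    rcases Nat.eq_or_lt_of_le hk with rfl | hk
    · rw [h.1, h.2.1]; norm_num
    · exact (h.2.2 (k + 1) (by omega)).1.1
  have mo : ∀ {i j}, 1 ≤ i → i < j → u i < u j := fun a b => mono (fun k a _ => st k a) a b le_rfl
  have pos : ∀ i, 1 ≤ i → 1 ≤ u i := fun i a => by
    rcases Nat.eq_or_lt_of_le a with rfl | a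
    · exact h.1.ge
    · exact h.1.ge.trans (mo le_rfl a).le
  have key : ∀ m < 3572, (∃ i, 1 ≤ i ∧ u i = m) ↔ B.testBit m = true := fun m => by
    induction m using Nat.strong_induction_on with
    | _ m ih =>
      intro hm
      by_cases h3 : 3 ≤ m
      · rw [char h h3, (chk m hm).2 h3, reps, rp, ← List.toFinset_card_of_nodup (nd.filter _),
          Finset.card_eq_one_iff_existsUnique]
        refine existsUnique_congr fun a => ?_
        simp only [List.mem_toFinset, List.mem_filter, Bool.and_eq_true, decide_eq_true_eq]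
        constructor
        · rintro ⟨a1, a2, a3⟩
          have := a2.imp fun i k => k.2 ▸ pos i k.1
          obtain ⟨_, this⟩ := this
          exact ⟨(chk a (by omega)).1.1 ((ih a (by omega) (by omega)).1 a2), a1,
            (ih _ (by omega) (by omega)).1 a3⟩
        · rintro ⟨a1, a2, a3⟩
          have b := (ih a (by omega) (by omega)).2 ((chk a (by omega)).1.2 a1)
          obtain ⟨_, this⟩ := b.imp fun i k => k.2 ▸ pos i k.1
          exact ⟨a2, b, (ih _ (by omega) (by omega)).2 a3⟩
      · interval_cases m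
        · exact iff_of_false (fun ⟨i, a, b⟩ => by have := pos i a; omega) (by decide +kernel)
        · exact iff_of_true ⟨1, le_rfl, h.1⟩ (by decide +kernel)
        · exact iff_of_true ⟨2, by norm_num, h.2.1⟩ (by decide +kernel)
  have e : lucas 17 = 3571 := by decide
  refine ⟨17, fun i a b => absurd ((key _ (by norm_num)).1 ⟨i, a, b.trans e⟩) (by decide +kernel),
    fun i j a b c => ?_⟩
  have z : reps 3571 = [] := by decide +kernel
  have := mo a b
  have : u i ∈ reps 3571 := by
    simp only [reps, rp, List.mem_filter, Bool.and_eq_true, decide_eq_true_eq]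
    exact ⟨(chk _ (by omega)).1.1 ((key _ (by omega)).1 ⟨i, a, rfl⟩), by omega,
      (key _ (by omega)).1 ⟨j, by omega, by omega⟩⟩
  rw [z] at this
  exact List.not_mem_nil this

end Pool.Agent.Results.MP_7bafff_nt.Counter
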